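import Pool.Agent.Helper24.HM.Start

/-!
# Dynamics near a flop curve: the first graph from a double cover of a line
-/

set_option autoImplicit false

namespace Pool.Agent.Helper64.HM

open Pool.Agent.Helper24.HN Pool.Agent.Helper24.HM

open Pool.Agent.Helper45.HN (one_lt_p p2_lt p2_pos p2_le_one norm_add_le' norm_mul_le' norm_sub_le'
  norm_smul_xi)

variable {p : ℕ} [Fact p.Prime] {n : ℕ} {I : Type} {L : LocM p n I} {J : Type} [DecidableEq J]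
  {R : RefM L J} (M : MemsM L R)

/-- Division with the estimate of the quotient. -/
theorem exists_quot {a b : ℤ_[p]} {s : ℝ} (hs : s ≤ 1) (hb : b ≠ 0) (h : ‖a‖ ≤ s * ‖b‖) :
    ∃ q : ℤ_[p], a = q * b ∧ ‖q‖ ≤ s := by
  have hb' : (b : ℚ_[p]) ≠ 0 := by
    intro h0
    exact hb (Subtype.ext h0)
  have hn : 0 < ‖(b : ℚ_[p])‖ := norm_pos_iff.2 hb'
  have h1 : ‖(a : ℚ_[p]) / b‖ ≤ s := by
    rw [norm_div, div_le_iff₀ hn]
    exact h
  refine ⟨⟨(a : ℚ_[p]) / b, h1.trans hs⟩, Subtype.ext ?_, h1⟩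
  change (a : ℚ_[p]) = (a : ℚ_[p]) / b * b
  rw [div_mul_cancel₀ _ hb']

/-- The first graph from the points over the line `u0 + t v`, if the form over `u0` is
`A u0 (z - z y) (z - z j)` with a small leading coefficient. -/
theorem start_curve (v : V p n) (hv : ‖L.dF R.u0 v (R.z R.j)‖ = 1)
    (hA : ‖L.A R.u0‖ = (p : ℝ) ^ (-2 : ℤ)) (hy : L.F R.u0 (R.z R.y) = 0)
    (hj : L.F R.u0 (R.z R.j) = 0)
    (mem : ∀ t w : ℤ_[p], ‖t‖ ≤ (p : ℝ) ^ (-2 : ℤ) * (p : ℝ) ^ (-2 : ℤ) →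
      ‖w - R.z R.j‖ ≤ (p : ℝ) ^ (-2 : ℤ) → L.F (R.u0 + t • v) w = 0 →
      L.A (R.u0 + t • v) ≠ 0 → M.Mem 0 (R.u0 + t • v) w) : ∃ x, StM M R.y R.j 2 0 x := by
  classical
  set c : ℤ_[p] := L.dF R.u0 v (R.z R.j) with hc
  have h2pos : (0 : ℝ) < (p : ℝ) ^ (-2 : ℤ) := p2_pos
  have h44 : (p : ℝ) ^ (-2 : ℤ) * (p : ℝ) ^ (-2 : ℤ) ≤ (p : ℝ) ^ (-2 : ℤ) := by
    calc (p : ℝ) ^ (-2 : ℤ) * (p : ℝ) ^ (-2 : ℤ) ≤ 1 * (p : ℝ) ^ (-2 : ℤ) :=
          mul_le_mul_of_nonneg_right p2_le_one h2pos.le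
      _ = _ := one_mul _
  have h44' : (p : ℝ) ^ (-2 : ℤ) * (p : ℝ) ^ (-2 : ℤ) < (p : ℝ) ^ (-2 : ℤ) := by
    have : (p : ℝ) ^ (-2 : ℤ) < 1 :=
      p2_lt.trans_le (zpow_le_one_of_nonpos₀ one_lt_p.le (by norm_num))
    nlinarith
  have hne : R.z R.j ≠ R.z R.y := by
    intro h
    have := R.hz _ _ (Ne.symm R.hyj)
    rw [h, sub_self, norm_zero] at this
    exact zero_ne_one this
  have hfac : ∀ w, L.F R.u0 w = L.A R.u0 * (w - R.z R.y) * (w - R.z R.j) := fun w =>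
    Pool.Agent.Helper45.HN.F_of_roots L.base _ hne hj hy w
  have hF0 : ∀ w, ‖w - R.z R.j‖ ≤ (p : ℝ) ^ (-2 : ℤ) →
      ‖L.F R.u0 w‖ ≤ (p : ℝ) ^ (-2 : ℤ) * (p : ℝ) ^ (-2 : ℤ) := by
    intro w hw
    rw [hfac, norm_mul]
    refine mul_le_mul (norm_mul_le' hA.le) hw (norm_nonneg _) h2pos.le
  have hsub : ∀ w s t : ℤ_[p], ‖w - R.z R.j‖ ≤ (p : ℝ) ^ (-2 : ℤ) → ‖s‖ ≤ (p : ℝ) ^ (-2 : ℤ) →
      ‖t‖ ≤ (p : ℝ) ^ (-2 : ℤ) →
      ‖L.F (R.u0 + s • v) w - L.F (R.u0 + t • v) w - c * (s - t)‖ ≤ (p : ℝ) ^ (-2 : ℤ) * ‖s - t‖ :=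
    fun w s t hw hs ht => Pool.Agent.Helper45.HN.line_sub L.base R.u0 v c w (R.z R.j) s t rfl hw hs ht
  -- the parameter
  have hex : ∀ w : ℤ_[p], ‖w - R.z R.j‖ ≤ (p : ℝ) ^ (-2 : ℤ) → ∃ t : ℤ_[p],
      ‖t‖ ≤ (p : ℝ) ^ (-2 : ℤ) * (p : ℝ) ^ (-2 : ℤ) ∧ L.F (R.u0 + t • v) w = 0 := by
    intro w hw
    obtain ⟨t, ht, ht0, -⟩ := Pool.Agent.Helper45.XN.exists_root_of_slope
      (fun t => L.F (R.u0 + t • v) w) 0 c
      ((p : ℝ) ^ (-2 : ℤ) * (p : ℝ) ^ (-2 : ℤ)) (mul_nonneg h2pos.le h2pos.le) hv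
      (fun s t hs ht => by
        rw [sub_zero] at hs ht
        refine (hsub w s t hw (hs.trans h44) (ht.trans h44)).trans
          (mul_le_mul_of_nonneg_right ?_ (norm_nonneg _))
        rw [← zpow_neg_one]
        exact p2_lt.le) (by
        simpa using hF0 w hw)
    rw [sub_zero] at ht
    exact ⟨t, ht, ht0⟩
  choose! T hT4 hT0 using hex
  have hT : ∀ w, ‖w - R.z R.j‖ ≤ (p : ℝ) ^ (-2 : ℤ) → ‖T w‖ ≤ (p : ℝ) ^ (-2 : ℤ) :=
    fun w hw => (hT4 w hw).trans h44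
  -- the coefficients over the points of the graph
  have hAx : ∀ w, ‖w - R.z R.j‖ ≤ (p : ℝ) ^ (-2 : ℤ) →
      ‖L.A (R.u0 + T w • v) - L.A R.u0‖ ≤ (p : ℝ) ^ (-2 : ℤ) * (p : ℝ) ^ (-2 : ℤ) := by
    intro w hw
    have h1 := L.hA R.u0 (T w • v)
    rw [map_smul, smul_eq_mul] at h1
    have e : L.A (R.u0 + T w • v) - L.A R.u0 =
        (L.A (R.u0 + T w • v) - L.A R.u0 - T w * L.dA R.u0 v) + T w * L.dA R.u0 v := by ring
    rw [e]
    refine norm_add_le' (h1.trans ?_) (norm_mul_le' (hT4 w hw))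
    rw [sq]
    exact mul_le_mul ((norm_smul_xi _ _).trans (hT w hw)) ((norm_smul_xi _ _).trans (hT w hw))
      (norm_nonneg _) h2pos.le
  have hBx : ∀ w, ‖w - R.z R.j‖ ≤ (p : ℝ) ^ (-2 : ℤ) →
      ‖L.B (R.u0 + T w • v) - L.B R.u0‖ ≤ (p : ℝ) ^ (-2 : ℤ) * (p : ℝ) ^ (-2 : ℤ) := by
    intro w hw
    have h1 := L.hB R.u0 (T w • v)
    rw [map_smul, smul_eq_mul] at h1
    have e : L.B (R.u0 + T w • v) - L.B R.u0 =
        (L.B (R.u0 + T w • v) - L.B R.u0 - T w * L.dB R.u0 v) + T w * L.dB R.u0 v := by ring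
    rw [e]
    refine norm_add_le' (h1.trans ?_) (norm_mul_le' (hT4 w hw))
    rw [sq]
    exact mul_le_mul ((norm_smul_xi _ _).trans (hT w hw)) ((norm_smul_xi _ _).trans (hT w hw))
      (norm_nonneg _) h2pos.le
  have hlead : ∀ w, ‖w - R.z R.j‖ ≤ (p : ℝ) ^ (-2 : ℤ) →
      ‖L.A (R.u0 + T w • v)‖ = (p : ℝ) ^ (-2 : ℤ) := by
    intro w hw
    have h1 := (hAx w hw).trans_lt h44'
    have e : L.A (R.u0 + T w • v) = (L.A (R.u0 + T w • v) - L.A R.u0) + L.A R.u0 := by ring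
    rw [e, IsUltrametricDist.norm_add_eq_max_of_norm_ne_norm (by rw [hA]; exact h1.ne), hA,
      max_eq_right h1.le]
  have hB0 : ‖L.B R.u0‖ ≤ (p : ℝ) ^ (-2 : ℤ) := R.hB0
  have hBs : ∀ w, ‖w - R.z R.j‖ ≤ (p : ℝ) ^ (-2 : ℤ) →
      ‖L.B (R.u0 + T w • v)‖ ≤ (p : ℝ) ^ (-2 : ℤ) := by
    intro w hw
    have e : L.B (R.u0 + T w • v) = (L.B (R.u0 + T w • v) - L.B R.u0) + L.B R.u0 := by ring
    rw [e]
    exact norm_add_le' ((hBx w hw).trans h44) hB0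
  have hsum : L.A R.u0 * (R.z R.y + R.z R.j) + L.B R.u0 = 0 := by
    have h0 := hfac 0
    have h1 := hfac 1
    simp only [LocM.F] at h0 h1
    linear_combination h1 - h0
  have hAne : ∀ w, ‖w - R.z R.j‖ ≤ (p : ℝ) ^ (-2 : ℤ) → L.A (R.u0 + T w • v) ≠ 0 := by
    intro w hw h
    have := hlead w hw
    rw [h, norm_zero] at this
    exact h2pos.ne this
  refine ⟨fun w => R.u0 + T w • v, R.hyj, le_rfl, ?_, ?_, ?_, ?_, ?_⟩
  · intro w hw
    rw [add_sub_cancel_left]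
    exact (norm_smul_xi _ _).trans (hT w hw)
  · intro w hw
    exact mem _ _ (hT4 w hw) hw (hT0 w hw) (hAne w hw)
  · intro w hw
    exact hlead w hw
  · intro z w hz' hw
    have e1 : (R.u0 + T z • v) - (R.u0 + T w • v) = (T z - T w) • v := by
      rw [sub_smul]
      abel
    rw [e1]
    refine (norm_smul_xi _ _).trans ?_
    by_cases hzw : T z = T w
    · rw [hzw, sub_self, norm_zero]
      exact mul_nonneg h2pos.le (norm_nonneg _)
    have h1 := hsub z (T z) (T w) hz' (hT z hz') (hT w hw)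
    rw [hT0 z hz', zero_sub] at h1
    have h2 : L.F (R.u0 + T w • v) z = (z - w) * (L.A (R.u0 + T w • v) * (z + w) +
        L.B (R.u0 + T w • v)) := by
      have h3 := Pool.Agent.Helper45.HN.F_sub_z L.base (R.u0 + T w • v) z w
      have h4 : L.base.F (R.u0 + T w • v) w = 0 := hT0 w hw
      rw [h4, sub_zero] at h3
      exact h3
    have h5 : ‖L.F (R.u0 + T w • v) z‖ ≤ (p : ℝ) ^ (-2 : ℤ) * ‖z - w‖ := by
      rw [h2, norm_mul, mul_comm]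
      exact mul_le_mul_of_nonneg_right (norm_add_le' (norm_mul_le' (hlead w hw).le) (hBs w hw))
        (norm_nonneg _)
    have h0 : 0 < ‖T z - T w‖ := norm_pos_iff.2 (sub_ne_zero.2 hzw)
    have h3 : ‖c * (T z - T w)‖ = ‖T z - T w‖ := by rw [norm_mul, hv, one_mul]
    have h4 : (p : ℝ) ^ (-2 : ℤ) * ‖T z - T w‖ < ‖T z - T w‖ := by
      have : (p : ℝ) ^ (-2 : ℤ) < 1 :=
        p2_lt.trans_le (zpow_le_one_of_nonpos₀ one_lt_p.le (by norm_num))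
      nlinarith
    by_contra hcon
    push Not at hcon
    have h6 : ‖-L.F (R.u0 + T w • v) z - c * (T z - T w)‖ = ‖T z - T w‖ := by
      rw [sub_eq_add_neg, IsUltrametricDist.norm_add_eq_max_of_norm_ne_norm (by
        rw [norm_neg, norm_neg, h3]
        exact (h5.trans_lt hcon).ne), norm_neg, norm_neg, h3, max_eq_right (h5.trans hcon.le)]
    rw [h6] at h1
    exact absurd h1 (not_le.2 h4)
  · intro w hw
    have h1 : ‖L.A (R.u0 + T w • v) * (R.z R.y + R.z R.j) + L.B (R.u0 + T w • v)‖ ≤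
        (p : ℝ) ^ (-2 : ℤ) * ‖L.A (R.u0 + T w • v)‖ := by
      have e : L.A (R.u0 + T w • v) * (R.z R.y + R.z R.j) + L.B (R.u0 + T w • v) =
          (L.A (R.u0 + T w • v) - L.A R.u0) * (R.z R.y + R.z R.j) +
            (L.B (R.u0 + T w • v) - L.B R.u0) := by
        linear_combination hsum
      rw [e, hlead w hw]
      exact norm_add_le' (norm_mul_le' (hAx w hw)) (hBx w hw)
    obtain ⟨q, hq, hq2⟩ := exists_quot p2_le_one (hAne w hw) h1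
    refine ⟨R.z R.y + R.z R.j - w - q, ?_, fun s => ?_⟩
    · have e : R.z R.y + R.z R.j - w - q - R.z R.y = -(w - R.z R.j) - q := by ring
      rw [e]
      exact norm_sub_le' (by rwa [norm_neg]) hq2
    · have h2 : L.A (R.u0 + T w • v) * w ^ 2 + L.B (R.u0 + T w • v) * w +
          L.C (R.u0 + T w • v) = 0 := hT0 w hw
      simp only [LocM.F]
      linear_combination h2 + (s - w) * hq

end Pool.Agent.Helper64.HM
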